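import Pool.Agent.R933.AscFinal

/-!
# From a number field to its extensions: the orders for the powers of an elliptic curve

`E : y² = f(x)` is an elliptic curve over a number field `K` without complex multiplication.  Tate's
conjecture predicts that over every finite extension `F` of `K` the order of the pole of
`L(H^{2m}(E^n / F), s)` at `s = m + 1` is the Narayana number `C(n+1, m) C(n+1, m+1) / (n+1)`, the
rank of the group of codimension `m` cycles on `E^n`.  (`E^n` over `F` is by restriction of the base a
variety over `ℚ`, with the same cycles and the same `L`-functions.)  We suppose that this is true over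
`K` (this is known if `K` is totally real or a CM field) and go up to an arbitrary finite extension
`F`, where potential automorphy says nothing in general.

The result: if the orders over `F` exist for all powers, then they are given by one positive integer
`M` with `M² ≤ [F : K]`, where `M = 1` is the case predicted by Tate; moreover `M = 1` or `M < c`, with
`c` the number of the fields of which `F ⊗_K F` is the product (the number of the double cosets
`H \ G / H` for `F = L^H`, `L / K` Galois with group `G`).  In particular the existence of the orders over `F` gives Tate's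
formula over `F` in all of the following cases: the degree of `F / K` is at most three; the Galois group of `F / K` is
doubly transitive (for example the symmetric group, the case of almost all extensions of given
degree); `L(H²(E × E / F), s)` has a pole of order three at `s = 2`.
-/

set_option autoImplicit false

namespace Pool.Agent.Results.MP_058a58_ag.OverExtensions

open NumberField IsDedekindDomain Polynomial Pool.Agent.R933.Defs
open scoped TensorProduct

/-- The number of the fields whose product is `F ⊗_K F`. -/
noncomputable def numFields (K F : Type) [Field K] [Field F] [Algebra K F] : ℕ :=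
  Nat.card (MaximalSpectrum (F ⊗[K] F))

/-- **The orders over extensions.**  Let `E : y² = f(x)` be an elliptic curve over a number field `K`
with good reduction outside the finite set `S` of primes such that for all `m ≤ n` the order of the
pole of `L(H^{2m}(E^n), s)` at `s = m + 1` is `C(n+1, m) C(n+1, m+1) / (n+1)`, as predicted by Tate's
conjecture for curves without complex multiplication.  Let `F` be a finite extension of `K` (with a
finite set `S'` of primes of `F` outside of which `E` has good reduction), and suppose that for all
`m ≤ n` the pole of `L(H^{2m}(E^n / F), s)` at `s = m + 1` has an order `ρ(n, m)`.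

1. There is an integer `M ≥ 1` with `M² ≤ [F : K]`, and `M = 1` or `M < numFields K F`, such that
   `ρ(n, m) = C(n, m)² - C(n, m + M) C(n, m - M)` for all `m ≤ n` (the last term is zero for `m < M`).
2. If `[F : K] ≤ 3` or `numFields K F ≤ 2` or `ρ(2, 1) = 3`, then
   `ρ(n, m) = C(n+1, m) C(n+1, m+1) / (n+1)` for all `m ≤ n`, as predicted by Tate's conjecture. -/
theorem result (K F : Type) [Field K] [NumberField K] [Field F] [NumberField F] [Algebra K F]
    (f : (𝓞 K)[X]) (h3 : f.natDegree = 3)
    (S : Finset (HeightOneSpectrum (𝓞 K))) (hS : ∀ v, v ∉ S → GoodAt f v)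
    (B : ℕ → ℕ → HeightOneSpectrum (𝓞 K) → ℂ[X]) (hB : ∀ n m, Regular m S (B n m))
    (ρK : ℕ → ℕ → ℤ) (hρK : ∀ n m, m ≤ n → HasPole m (fun _ : Fin n => f) S (B n m) (ρK n m))
    (hT : ∀ n m, m ≤ n → (n + 1) * ρK n m = ((n + 1).choose m : ℤ) * (n + 1).choose (m + 1))
    (S' : Finset (HeightOneSpectrum (𝓞 F)))
    (hS' : ∀ w, w ∉ S' → GoodAt (f.map (algebraMap (𝓞 K) (𝓞 F))) w)
    (B' : ℕ → ℕ → HeightOneSpectrum (𝓞 F) → ℂ[X]) (hB' : ∀ n m, Regular m S' (B' n m))
    (ρ : ℕ → ℕ → ℤ) (hρ : ∀ n m, m ≤ n →
      HasPole m (fun _ : Fin n => f.map (algebraMap (𝓞 K) (𝓞 F))) S' (B' n m) (ρ n m)) :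
    (∃ M : ℕ, 1 ≤ M ∧ M ^ 2 ≤ Module.finrank K F ∧ (M = 1 ∨ M < numFields K F) ∧
      ∀ n m, m ≤ n → ρ n m = (n.choose m : ℤ) ^ 2 -
        if M ≤ m then (n.choose (m + M) : ℤ) * n.choose (m - M) else 0) ∧
    (Module.finrank K F ≤ 3 ∨ numFields K F ≤ 2 ∨ ρ 2 1 = 3 →
      ∀ n m, m ≤ n → (n + 1) * ρ n m = ((n + 1).choose m : ℤ) * (n + 1).choose (m + 1)) :=
  Pool.Agent.R933.asc_final h3 hS hB hρK hT hS' hB' hρ

end Pool.Agent.Results.MP_058a58_ag.OverExtensions
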