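import Pool.Agent.R933.PowFinal

/-!
# The orders of `L(H^{2m}(E^n), s)` at `s = m + 1` for the powers of an elliptic curve: rigidity

`E : y² = f(x)` is an elliptic curve over a number field `K` (a smooth projective variety over `ℚ`).
Tate's conjecture predicts for the order `ρ(n, m)` of the pole of `L(H^{2m}(E^n), s)` at `s = m + 1`
the rank of the group of codimension `m` cycles on `E^n`, which is

* the Narayana number `C(n+1, m) C(n+1, m+1) / (n+1)`, if `E` has no complex multiplication,
* `(C(n, m)² + C(n, m)) / 2`, if `E` has complex multiplication which is not defined over `K`,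
* `C(n, m)²`, if `E` has complex multiplication over `K`.

We prove that the orders are rigid: if they exist for all powers of `E`, they are these or one of
the explicit families below, unless the angles of Frobenius are concentrated at the multiples of
`π / N` for some `N`.  In particular two values decide: if the orders exist, `ρ(2, 1) = 3` and
`ρ(4, 2) = 20`, then Tate's formula for curves without complex multiplication holds for all powers
and all codimensions, unless the angles are concentrated.

The proof classifies the positive definite sequences of integers with the value two at zero; it uses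
neither modularity nor analytic continuation.
-/

set_option autoImplicit false

namespace Pool.Agent.Results.MP_058a58_ag.PowersRigidity

open NumberField IsDedekindDomain Polynomial Pool.Agent.R933.Defs

/-- **Rigidity of the orders for the powers of an elliptic curve.**  Let `E : y² = f(x)` be an
elliptic curve over a number field `K` with good reduction outside the finite set `S` of primes, and
suppose that for all `m ≤ n` the pole of `L(H^{2m}(E^n), s)` at `s = m + 1` has an order `ρ(n, m)`.

1. At least one of the following statements is true.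
   * For some `N ≥ 1` the angles of Frobenius are concentrated at the multiples of `π / N`.
   * `ρ(n, m) = C(n, m)²` for all `m ≤ n`.
   * For some `N ≥ 1` and `ε = ±1`, `ρ(n, m) = C(n, m)² + ∑_{1 ≤ i ≤ m/N} ε^i C(n, m + iN) C(n, m - iN)`
     for all `m ≤ n`.
   * For some `N ≥ 1` and `ε = ±1`, `ρ(n, m) = C(n, m)² + ε C(n, m + N) C(n, m - N)` for all `m ≤ n`.
2. If `ρ(2, 1) = 3`, then the angles are concentrated at the multiples of `π / N` for some `N ≥ 1`, or
   `ρ(n, m) = (C(n, m)² + C(n, m)) / 2` for all `m ≤ n`, or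
   `ρ(n, m) = C(n+1, m) C(n+1, m+1) / (n+1)` for all `m ≤ n`. -/
theorem result (K : Type) [Field K] [NumberField K] (f : (𝓞 K)[X]) (h3 : f.natDegree = 3)
    (S : Finset (HeightOneSpectrum (𝓞 K))) (hS : ∀ v, v ∉ S → GoodAt f v)
    (B : ℕ → ℕ → HeightOneSpectrum (𝓞 K) → ℂ[X]) (hB : ∀ n m, Regular m S (B n m))
    (ρ : ℕ → ℕ → ℤ) (hρ : ∀ n m, m ≤ n → HasPole m (fun _ : Fin n => f) S (B n m) (ρ n m)) :
    ((∃ N, 1 ≤ N ∧ Concentrated f S N) ∨
      (∀ n m, m ≤ n → ρ n m = (n.choose m : ℤ) ^ 2) ∨
      (∃ N, 1 ≤ N ∧ ∃ ε : ℤ, (ε = 1 ∨ ε = -1) ∧ ∀ n m, m ≤ n → ρ n m = (n.choose m : ℤ) ^ 2 +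
        ∑ j ∈ (Finset.Icc 1 m).filter (N ∣ ·),
          ε ^ (j / N) * n.choose (m + j) * n.choose (m - j)) ∨
      (∃ N, 1 ≤ N ∧ ∃ ε : ℤ, (ε = 1 ∨ ε = -1) ∧ ∀ n m, m ≤ n → ρ n m = (n.choose m : ℤ) ^ 2 +
        if N ≤ m then ε * n.choose (m + N) * n.choose (m - N) else 0)) ∧
    (ρ 2 1 = 3 → (∃ N, 1 ≤ N ∧ Concentrated f S N) ∨
      (∀ n m, m ≤ n → 2 * ρ n m = (n.choose m : ℤ) ^ 2 + n.choose m) ∨
      (∀ n m, m ≤ n → (n + 1) * ρ n m = ((n + 1).choose m : ℤ) * (n + 1).choose (m + 1))) :=
  Pool.Agent.R933.pow_final h3 hS hB hρ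

end Pool.Agent.Results.MP_058a58_ag.PowersRigidity
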