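import Pool.Agent.R933.WordEnd

/-!
# The pole of `L(H^{2m}(E_{w_1} × ⋯ × E_{w_r}), s)` at `s = m + 1`: from low degree to all degrees

`E_1, …, E_k` are elliptic curves over a number field `K`.  Tate's conjecture predicts the order of the
pole of `L(H^{2m}(X), s)` at `s = m + 1` for all products `X = E_{w_1} × ⋯ × E_{w_r}` of any number of
these curves, with repetitions, and all `m`; for curves without complex multiplication no two of
which are isogenous over the algebraic closure it is the number `rank w m`.  For three or more
different curves, or for one curve over a general number field, these orders are not known.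

We prove that, if the orders exist, the prediction can fail only in the lowest degrees: either it
fails already for `H²(E_i²)` (where it is `3`) or `H⁴(E_i⁴)` (where it is `20`) for one of the curves, or
the angles of Frobenius of one of the curves are concentrated at the multiples of some `π / N`, or
for two of the curves it fails already for `H⁴(E_i² × E_j²)` (where it is `11`) and the traces of
Frobenius of the two curves agree up to sign asymptotically; or it is true for all products and all `m`.
Neither modularity nor analytic continuation is used.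
-/

set_option autoImplicit false

namespace Pool.Agent.Results.MP_058a58_ag.ProductsFromPowers

open NumberField IsDedekindDomain Polynomial Pool.Agent.R933.Defs

/-- **Products of elliptic curves.**  Let `E_i : y² = f_i(x)`, `i = 1, …, k`, be elliptic curves over a
number field `K` with good reduction outside the finite set `S` of primes, and suppose that for all
words `w` of length `r` and all `m ≤ r` the pole of `L(H^{2m}(E_{w_1} × ⋯ × E_{w_r}), s)` at `s = m + 1`
has an order `ρ(w, m)`.  At least one of the following statements is true.
1. For some `i`, `ρ(ii, 1) ≠ 3` or `ρ(iiii, 2) ≠ 20`.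
2. For some `i` and some `N ≥ 1` the angles of Frobenius of `E_i` are concentrated at the multiples of
   `π / N`.
3. For some `i ≠ j`, `ρ(iijj, 2)` is `4`, `12` or `20`, and the traces of Frobenius of `E_i` and `E_j` agree
   up to sign, asymptotically.
4. `ρ(w, m) = rank w m` for all words `w` of all lengths `r` and all `m ≤ r`. -/
theorem result (K : Type) [Field K] [NumberField K] (k : ℕ) (f : Fin k → (𝓞 K)[X])
    (h3 : ∀ i, (f i).natDegree = 3) (S : Finset (HeightOneSpectrum (𝓞 K)))
    (hS : ∀ v, v ∉ S → ∀ i, GoodAt (f i) v)
    (B : ∀ r : ℕ, (Fin r → Fin k) → ℕ → HeightOneSpectrum (𝓞 K) → ℂ[X])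
    (hB : ∀ r w m, Regular m S (B r w m))
    (ρ : ∀ r : ℕ, (Fin r → Fin k) → ℕ → ℤ)
    (hρ : ∀ r w m, m ≤ r → HasPole m (fun j => f (w j)) S (B r w m) (ρ r w m)) :
    (∃ i, ρ 2 (fun _ => i) 1 ≠ 3 ∨ ρ 4 (fun _ => i) 2 ≠ 20) ∨
    (∃ i N, 1 ≤ N ∧ Concentrated (f i) S N) ∨
    (∃ i j, i ≠ j ∧ (ρ 4 ![i, i, j, j] 2 = 4 ∨ ρ 4 ![i, i, j, j] 2 = 12 ∨
      ρ 4 ![i, i, j, j] 2 = 20) ∧ AgreeUpToSign (f i) (f j) S) ∨
    (∀ (r : ℕ) (w : Fin r → Fin k) (m : ℕ), m ≤ r → ρ r w m = rank w m) :=
  Pool.Agent.R933.word_final h3 hS hB hρ

end Pool.Agent.Results.MP_058a58_ag.ProductsFromPowers
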