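import Pool.Agent.R933.WordAscFin

/-!
# From a number field to its extensions: the orders for the products of several elliptic curves

`E_1, …, E_k` are elliptic curves over a number field `K`, without complex multiplication and no two
of them isogenous over the algebraic closure.  Tate's conjecture predicts that over every finite
extension `F` of `K`, for all products `X = E_{w_1} × ⋯ × E_{w_r}` with repetitions and all `m`, the order
of the pole of `L(H^{2m}(X / F), s)` at `s = m + 1` is the number `rank w m`.  We suppose that this is
true over `K` (this is known for `k ≤ 2` if `K` is totally real) and go up to an arbitrary finite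
extension `F`, where potential automorphy says nothing in general.

The result: if the orders over `F` exist, then all of them are as predicted as soon as those for the
`k` surfaces `E_i × E_i` and `m = 1` are, where the prediction is `3`.  Relations between different
curves need not be excluded: over `F` no condition on the products `E_i × E_j`, `i ≠ j`, is needed.
If the degree of `F / K` is at most three, or if `F ⊗_K F` is the product of at most two fields (the
Galois group of `F / K` is doubly transitive), then no condition at all is needed.
-/

set_option autoImplicit false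

namespace Pool.Agent.Results.MP_058a58_ag.ProductsOverExtensions

open NumberField IsDedekindDomain Polynomial Pool.Agent.R933.Defs
open scoped TensorProduct

/-- The number of the fields whose product is `F ⊗_K F`. -/
noncomputable def numFields (K F : Type) [Field K] [Field F] [Algebra K F] : ℕ :=
  Nat.card (MaximalSpectrum (F ⊗[K] F))

/-- **Products of elliptic curves over extensions.**  Let `E_i : y² = f_i(x)`, `i = 1, …, k`, be
elliptic curves over a number field `K` with good reduction outside the finite set `S` of primes such
that for all words `w` of length `r` and all `m ≤ r` the order of the pole of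
`L(H^{2m}(E_{w_1} × ⋯ × E_{w_r}), s)` at `s = m + 1` is `rank w m`, as predicted by Tate's conjecture for
curves without complex multiplication, no two of which are isogenous over the algebraic closure.
Let `F` be a finite extension of `K` (with a finite set `S'` of primes of `F` outside of which the
curves have good reduction), and suppose that for all words `w` of length `r` and all `m ≤ r` the pole
of `L(H^{2m}(E_{w_1} × ⋯ × E_{w_r} / F), s)` at `s = m + 1` has an order `ρ(w, m)`.

1. `ρ(w, m) = rank w m` for all words `w` of length `r` and all `m ≤ r` if and only if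
   `ρ(ii, 1) = 3` for all `i`.
2. If `[F : K] ≤ 3` or `numFields K F ≤ 2`, then `ρ(w, m) = rank w m` for all words `w` of length `r` and
   all `m ≤ r`. -/
theorem result (K F : Type) [Field K] [NumberField K] [Field F] [NumberField F] [Algebra K F]
    (k : ℕ) (f : Fin k → (𝓞 K)[X]) (h3 : ∀ i, (f i).natDegree = 3)
    (S : Finset (HeightOneSpectrum (𝓞 K))) (hS : ∀ v, v ∉ S → ∀ i, GoodAt (f i) v)
    (B : ∀ r : ℕ, (Fin r → Fin k) → ℕ → HeightOneSpectrum (𝓞 K) → ℂ[X])
    (hB : ∀ r w m, Regular m S (B r w m))
    (ρK : ∀ r : ℕ, (Fin r → Fin k) → ℕ → ℤ)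
    (hρK : ∀ r w m, m ≤ r → HasPole m (fun j => f (w j)) S (B r w m) (ρK r w m))
    (hT : ∀ (r : ℕ) (w : Fin r → Fin k) (m : ℕ), m ≤ r → ρK r w m = rank w m)
    (S' : Finset (HeightOneSpectrum (𝓞 F)))
    (hS' : ∀ v, v ∉ S' → ∀ i, GoodAt ((f i).map (algebraMap (𝓞 K) (𝓞 F))) v)
    (B' : ∀ r : ℕ, (Fin r → Fin k) → ℕ → HeightOneSpectrum (𝓞 F) → ℂ[X])
    (hB' : ∀ r w m, Regular m S' (B' r w m))
    (ρ : ∀ r : ℕ, (Fin r → Fin k) → ℕ → ℤ)
    (hρ : ∀ r w m, m ≤ r →
      HasPole m (fun j => (f (w j)).map (algebraMap (𝓞 K) (𝓞 F))) S' (B' r w m) (ρ r w m)) :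
    ((∀ (r : ℕ) (w : Fin r → Fin k) (m : ℕ), m ≤ r → ρ r w m = rank w m) ↔
      ∀ i, ρ 2 (fun _ => i) 1 = 3) ∧
    (Module.finrank K F ≤ 3 ∨ numFields K F ≤ 2 →
      ∀ (r : ℕ) (w : Fin r → Fin k) (m : ℕ), m ≤ r → ρ r w m = rank w m) :=
  Pool.Agent.R933.word_asc_iff h3 hS hB hρK hT hS' hB' hρ

end Pool.Agent.Results.MP_058a58_ag.ProductsOverExtensions
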